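import Pool.Agent.Q234.CE.Classical
import Pool.Agent.Q234.CE.Quantum

/-!
# MP_4af25b_mp: entropic separation of classical and quantum causal structures (helper234)

The causal structure has seven observed nodes, numbered

`0 : X`, `1 : Y`, `2 : Z`, `3 : A`, `4 : B`, `5 : C`, `6 : W`,

one unobserved node `Λ`, and the edges

`X → Z`, `Y → Z`, `X → A`, `Λ → A`, `Y → B`, `Λ → B`, `Z → C`, `Λ → C`, `A → W`, `B → W`, `C → W`.

We prove that the closures of the sets of entropy vectors of its classical and of its quantum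
version are different.
-/

set_option autoImplicit false

noncomputable section

namespace Pool.Agent.Results.MP_4af25b_mp.EntropicSeparation

open Matrix Filter Topology
open scoped Kronecker ComplexOrder

/-- probability vectors -/
def IsProb {ι : Type*} [Fintype ι] (p : ι → ℝ) : Prop := (∀ i, 0 ≤ p i) ∧ ∑ i, p i = 1

/-- POVMs on `ℂ^d` with outcomes in `Fin n` -/
def IsPOVM {d n : ℕ} (E : Fin n → Matrix (Fin d) (Fin d) ℂ) : Prop :=
  (∀ a, (E a).PosSemidef) ∧ ∑ a, E a = 1

/-- joint values of the seven observed nodes; node `i` has the alphabet `Fin (k i)` -/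
abbrev Outcome (k : Fin 7 → ℕ) : Type := ∀ i : Fin 7, Fin (k i)

/-- The observed distributions of the classical version: the joint law of all eight nodes is the
product of the conditional laws of the nodes given their parents, and `Λ` is summed over. -/
def IsClassical (k : Fin 7 → ℕ) (P : Outcome k → ℝ) : Prop :=
  ∃ (L : ℕ) (pL : Fin L → ℝ) (pX : Fin (k 0) → ℝ) (pY : Fin (k 1) → ℝ)
    (pZ : Fin (k 0) → Fin (k 1) → Fin (k 2) → ℝ)
    (pA : Fin (k 0) → Fin L → Fin (k 3) → ℝ)
    (pB : Fin (k 1) → Fin L → Fin (k 4) → ℝ)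
    (pC : Fin (k 2) → Fin L → Fin (k 5) → ℝ)
    (pW : Fin (k 3) → Fin (k 4) → Fin (k 5) → Fin (k 6) → ℝ),
    IsProb pL ∧ IsProb pX ∧ IsProb pY ∧ (∀ x y, IsProb (pZ x y)) ∧ (∀ x l, IsProb (pA x l)) ∧
    (∀ y l, IsProb (pB y l)) ∧ (∀ z l, IsProb (pC z l)) ∧ (∀ a b c, IsProb (pW a b c)) ∧
    ∀ v : Outcome k, P v = ∑ l, pL l * pX (v 0) * pY (v 1) * pZ (v 0) (v 1) (v 2) *
      pA (v 0) l (v 3) * pB (v 1) l (v 4) * pC (v 2) l (v 5) * pW (v 3) (v 4) (v 5) (v 6)

/-- The observed distributions of the quantum version: `Λ` is a density operator `ρ` on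
`ℂ^dA ⊗ ℂ^dB ⊗ ℂ^dC` (one factor per outgoing edge), and `A`, `B`, `C` are the outcomes of POVMs
on the three factors, chosen according to the values of `X`, `Y`, `Z`. -/
def IsQuantum (k : Fin 7 → ℕ) (P : Outcome k → ℝ) : Prop :=
  ∃ (dA dB dC : ℕ)
    (ρ : Matrix ((Fin dA × Fin dB) × Fin dC) ((Fin dA × Fin dB) × Fin dC) ℂ)
    (pX : Fin (k 0) → ℝ) (pY : Fin (k 1) → ℝ)
    (pZ : Fin (k 0) → Fin (k 1) → Fin (k 2) → ℝ)
    (MA : Fin (k 0) → Fin (k 3) → Matrix (Fin dA) (Fin dA) ℂ)
    (MB : Fin (k 1) → Fin (k 4) → Matrix (Fin dB) (Fin dB) ℂ)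
    (MC : Fin (k 2) → Fin (k 5) → Matrix (Fin dC) (Fin dC) ℂ)
    (pW : Fin (k 3) → Fin (k 4) → Fin (k 5) → Fin (k 6) → ℝ),
    ρ.PosSemidef ∧ ρ.trace = 1 ∧ IsProb pX ∧ IsProb pY ∧ (∀ x y, IsProb (pZ x y)) ∧
    (∀ x, IsPOVM (MA x)) ∧ (∀ y, IsPOVM (MB y)) ∧ (∀ z, IsPOVM (MC z)) ∧
    (∀ a b c, IsProb (pW a b c)) ∧
    ∀ v : Outcome k, ((P v : ℝ) : ℂ) = (pX (v 0) : ℂ) * (pY (v 1) : ℂ) *
      (pZ (v 0) (v 1) (v 2) : ℂ) *
      trace (ρ * ((MA (v 0) (v 3) ⊗ₖ MB (v 1) (v 4)) ⊗ₖ MC (v 2) (v 5))) *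
      (pW (v 3) (v 4) (v 5) (v 6) : ℂ)

/-- the marginal of `P` on the nodes of `S` -/
def marginal (k : Fin 7 → ℕ) (P : Outcome k → ℝ) (S : Finset (Fin 7)) (u : ∀ i : S, Fin (k i)) :
    ℝ := ∑ v : Outcome k, if ∀ i : S, v i = u i then P v else 0

/-- Shannon entropy (in bits) of the nodes of `S` -/
def entropy (k : Fin 7 → ℕ) (P : Outcome k → ℝ) (S : Finset (Fin 7)) : ℝ :=
  -∑ u : (∀ i : S, Fin (k i)), marginal k P S u * Real.logb 2 (marginal k P S u)

/-- the entropy vector, indexed by the nonempty sets of observed nodes -/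
def entropyVector (k : Fin 7 → ℕ) (P : Outcome k → ℝ) : {S : Finset (Fin 7) // S.Nonempty} → ℝ :=
  fun S => entropy k P S.1

/-- entropy vectors of the classical version -/
def classicalVectors : Set ({S : Finset (Fin 7) // S.Nonempty} → ℝ) :=
  {H | ∃ (k : Fin 7 → ℕ) (P : Outcome k → ℝ), IsClassical k P ∧ H = entropyVector k P}

/-- entropy vectors of the quantum version -/
def quantumVectors : Set ({S : Finset (Fin 7) // S.Nonempty} → ℝ) :=
  {H | ∃ (k : Fin 7 → ℕ) (P : Outcome k → ℝ), IsQuantum k P ∧ H = entropyVector k P}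

open Pool.Agent.Q234.CE in
lemma exists_Cl {k : Fin 7 → ℕ} {P : Outcome k → ℝ} (h : IsClassical k P) :
    ∃ D : Cl k, D.P = P := by
  obtain ⟨L, pL, pX, pY, pZ, pA, pB, pC, pW, hL, hX, hY, hZ, hA, hB, hC, hW, hP⟩ := h
  refine ⟨⟨L, pL, pX, pY, pZ, pA, pB, pC, pW, hL.1, hL.2, hX.1, hX.2, hY.1, hY.2,
    fun x y => (hZ x y).1, fun x y => (hZ x y).2, fun x l => (hA x l).1, fun x l => (hA x l).2,
    fun x l => (hB x l).1, fun x l => (hB x l).2, fun x l => (hC x l).1, fun x l => (hC x l).2,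
    fun a b c => (hW a b c).1, fun a b c => (hW a b c).2⟩, ?_⟩
  funext v
  rw [hP]
  unfold Cl.P Cl.T
  simp only
  rw [Finset.mul_sum, Finset.sum_mul]
  refine Finset.sum_congr rfl fun l _ => ?_
  ring

open Pool.Agent.Q234.CE in
lemma entropy_eq (k : Fin 7 → ℕ) (P : Outcome k → ℝ) (S : Finset (Fin 7)) :
    ent P (res S) = Real.log 2 * entropy k P S := by
  classical
  have h2 : Real.log 2 ≠ 0 := (Real.log_pos (by norm_num)).ne'
  have h1 : ∀ u, marginal k P S u = law P (res S) u := by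
    intro u
    unfold marginal law
    refine Finset.sum_congr rfl fun v _ => ?_
    by_cases h : ∀ i : S, v i = u i
    · rw [if_pos h, if_pos (show res S v = u from funext h)]
    · have h3 : ¬ (res S v = u) := fun h' => h (fun i => congrFun h' i)
      rw [if_neg h, if_neg h3]
  rw [ent_eq_sum, entropy, ← Finset.sum_neg_distrib, Finset.mul_sum]
  rw [Finset.sum_subset (Finset.subset_univ (img (res S))) fun u _ hu => by
    rw [law_eq_zero_of_notMem _ hu, Real.negMulLog_zero]]
  refine Finset.sum_congr rfl fun u _ => ?_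
  rw [h1, Real.logb, Real.negMulLog]
  field_simp

open Pool.Agent.Q234.CE in
lemma target_quantum : IsQuantum (fun _ => 2) Pt := by
  have hhalf : IsProb (fun _ : Fin 2 => (1 / 2 : ℝ)) :=
    ⟨fun _ => by norm_num, by rw [Fin.sum_univ_two]; norm_num⟩
  have hdet : ∀ t : Fin 2, IsProb (fun s : Fin 2 => if s = t then (1 : ℝ) else 0) := fun t =>
    ⟨fun s => by
      show (0 : ℝ) ≤ if s = t then 1 else 0
      split_ifs
      exacts [zero_le_one, le_rfl], by simp⟩
  refine ⟨2, 2, 2, ghz, fun _ => 1 / 2, fun _ => 1 / 2,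
    fun x y z => if z = x + y then 1 else 0, eff, eff, eff,
    fun a b c w => if w = a + b + c then 1 else 0, ghz_psd, ghz_trace, hhalf, hhalf,
    fun x y => hdet (x + y), fun x => ⟨eff_psd x, eff_sum x⟩, fun x => ⟨eff_psd x, eff_sum x⟩,
    fun x => ⟨eff_psd x, eff_sum x⟩, fun a b c => hdet (a + b + c), fun v => ?_⟩
  rw [Pt_quantum v]
  push_cast
  rfl

open Pool.Agent.Q234.CE in
/-- the GHZ entropy vector is not a limit of classical ones -/
theorem target_not_mem : entropyVector (fun _ => 2) Pt ∉ closure classicalVectors := by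
  intro hmem
  obtain ⟨H, hH, hlim⟩ := mem_closure_iff_seq_limit.1 hmem
  choose k P hP hHP using hH
  have hD : ∀ n, ∃ D : Cl (k n), D.P = P n := fun n => exists_Cl (hP n)
  choose D hD using hD
  have hmod := fun n => (D n).exists_model
  choose σ hσ hmod using hmod
  -- entropies
  have hHm : ∀ n S, Hm (D n).P (fun v i => σ n i (v i)) S = Real.log 2 * entropy (k n) (P n) S := by
    intro n S
    rw [← entropy_eq, ← hD n]
    refine Hm_ent _ _ fun v v' => ?_
    rw [res_eq]
    exact forall₂_congr fun i _ => (hσ n i).eq_iff.symm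
  have hempty : ∀ (k : Fin 7 → ℕ) (P : Outcome k → ℝ), ∑ v, P v = 1 → entropy k P ∅ = 0 := by
    intro k P h1
    have h2 : ∀ u, marginal k P ∅ u = 1 := by
      intro u
      rw [← h1]
      unfold marginal
      refine Finset.sum_congr rfl fun v _ => ?_
      rw [if_pos]
      rintro ⟨i, hi⟩
      simp at hi
    unfold entropy
    simp [h2]
  have hconv : ∀ S, Tendsto (fun n => Hm (D n).P (fun v i => σ n i (v i)) S) atTop
      (𝓝 (ent Pt (res (k := fun _ => 2) S))) := by
    intro S
    simp_rw [hHm]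
    rw [entropy_eq]
    refine Tendsto.const_mul _ ?_
    by_cases hS : S.Nonempty
    · have h3 := (tendsto_pi_nhds.1 hlim) ⟨S, hS⟩
      refine h3.congr fun n => ?_
      rw [hHP n]
      rfl
    · rw [Finset.not_nonempty_iff_eq_empty] at hS
      subst hS
      rw [hempty (fun _ => 2) Pt (by
        have := sum_Pt fun _ => 1
        simp only [mul_one] at this
        rw [this]
        simp [Finset.card_univ])]
      have : ∀ n, entropy (k n) (P n) ∅ = 0 := fun n => hempty _ _ (by rw [← hD n, (D n).sum_P])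
      simp_rw [this]
      exact tendsto_const_nhds
  obtain ⟨M, hM⟩ := exists_limit _ _ _ hmod hconv
  exact no_limit hM target

/-- **Entropic separation.** For the causal structure above, the closure of the set of classical
entropy vectors differs from the closure of the set of quantum entropy vectors. -/
theorem result : closure classicalVectors ≠ closure quantumVectors := by
  intro h
  refine target_not_mem ?_
  rw [h]
  exact subset_closure ⟨_, _, target_quantum, rfl⟩

end Pool.Agent.Results.MP_4af25b_mp.EntropicSeparation
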